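import Pool.Agent.helper36.MP.SpecC

/-!
# Project mz: (MP_af9036_an): definitions

Upgrade of the universal strip (project mp:) from `ζ ^ j ≠ 1, j ≤ 5` to all `ζ ≠ 1`.
Paper: /team-store/MP_af9036_allzeta_helper54.md. Everything is in the namespace `MZS`; the objects of project mp: are in `MPS`.
-/

set_option autoImplicit false

open Complex Metric Set Filter Topology MeasureTheory

noncomputable section

namespace MZS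

open MPS

section
variable {k : ℕ} [NeZero k]

/-- the standing assumptions (`ρ₁` = scale of the flat discs, `δ = ρ₁ / 64`). -/
structure ST (n k : ℕ) [NeZero k] (c : ℂ) (b g : ZMod k → ℂ) (ψ : ZMod k → ℂ → ℂ) (R ε ρ₁ : ℝ) :
    Prop where
  su : SU n k c b g ψ R ε
  r0 : 0 < ρ₁
  r1 : 16 * ρ₁ ≤ 1
  he : ε ≤ ρ₁ ^ 3 / 4 ^ 200
  mp : ∀ i, MapsTo (ψ i) (ball 0 (Real.exp (-(ρ₁ / 64)))) (ball 0 R)

/-- a good backward orbit of length `k`, off the cycle: `|τ_q| > 1/2` and `|β_{q,j}| < 1/2` in intrinsic form. -/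
structure GOr (n : ℕ) (c : ℂ) (b g : ZMod k → ℂ) (x : ℕ → ℂ) : Prop where
  rel : ∀ q < k, x (q + 1) ^ n + c = x q
  ne0 : ∀ q < k, x (q + 1) ≠ 0
  av : ∀ q ≤ k, ∀ m, x q ≠ b m
  ne : BB b g (x 0) ≠ 0
  tl : ∀ q ≤ k, (∏ p ∈ Finset.range q, ‖fd n (x (p + 1))‖) ^ 2 * ‖BB b g (x 0)‖ <
    2 * ‖BB b g (x q)‖
  bl : ∀ q < k, ∀ j ∈ Finset.Ico 1 n, 2 * ‖BB b g (om n ^ j * x (q + 1))‖ <
    (∏ p ∈ Finset.range (q + 1), ‖fd n (x (p + 1))‖) ^ 2 * ‖BB b g (x 0)‖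

/-- a good backward orbit: as above, or the cycle itself. -/
def GO (n : ℕ) (c : ℂ) (b g : ZMod k → ℂ) (x : ℕ → ℂ) : Prop :=
  GOr n c b g x ∨ ∃ i : ZMod k, ∀ q ≤ k, x q = b (i - (q : ZMod k))

/-- the product representing `(x k - b i) / (x 0 - b i)` (see RPR). -/
def RR (n : ℕ) (b : ZMod k → ℂ) (i : ZMod k) (x : ℕ → ℂ) : ℂ :=
  ∏ q ∈ Finset.Icc 1 k, ∏ j ∈ Finset.Ico 1 n, (x q - om n ^ j * b (i - (q : ZMod k)))⁻¹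

/-- a path of good backward orbits from the pole `b i` to the pole `b l`, over `[0,3]`. -/
structure GP (n : ℕ) (c : ℂ) (b g : ZMod k → ℂ) (i l : ZMod k) (Γ : ℝ → ℕ → ℂ) : Prop where
  cont : ∀ q ≤ k, ContinuousOn (fun t => Γ t q) (Icc 0 3)
  go : ∀ t ∈ Icc (0 : ℝ) 3, GO n c b g (Γ t)
  left : ∀ q ≤ k, Γ 0 q = b (i - (q : ZMod k))
  right : ∀ q ≤ k, Γ 3 q = b (l - (q : ZMod k))

/-- Phase 1 data of the cylinder of `b i` (cutoff `3 δ`), with the rotation coordinate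
`w ↦ w - log ρ + P (exp w)`. -/
structure Cy (n : ℕ) (c : ℂ) (b g : ZMod k → ℂ) (ψ : ZMod k → ℂ → ℂ) (δ : ℝ) (i : ZMod k)
    (H : ℕ → ℂ → ℂ) (P : ℂ → ℂ) : Prop where
  s1 : Sys1 n c (fun j => b (i + j)) (ψ i) δ (fun _ => 3 * δ) H k
  val : ∀ q ≤ k, H q 0 = b (i - (q : ZMod k))
  ls : LevSys n c b g (GW H) (HP (3 * δ)) k
  good : ∀ w ∈ HP (5 * δ), ∀ q ≤ k, ‖tau b g (GW H) q w - 1‖ ≤ 1 / 4 ∧
    (1 ≤ q → lev n c b g (GW H) q w ≤ 1 / 4)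
  pd : DifferentiableOn ℂ P (ball 0 (Real.exp (-(4 * δ))))
  p0 : P 0 = 0
  pb : ∀ u ∈ ball (0 : ℂ) (Real.exp (-(4 * δ))), ‖P u‖ ≤ δ / 32 ∧ ‖u * deriv P u‖ ≤ 1 / 4
  pt : ∀ w ∈ HP (4 * δ), (1 + Complex.exp w * deriv P (Complex.exp w)) ^ 2 = tau b g (GW H) k w
  pe : ∀ w ∈ HP (4 * δ), (w - Complex.log (rho n b) + P (Complex.exp w)).re < 0 ∧
    hat (ψ i) (w - Complex.log (rho n b) + P (Complex.exp w)) = GW H k w

/-- `X` is a flat extension of `hat (ψ i)` across `i y`, radius `r`. -/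
structure FX (b g : ZMod k → ℂ) (ψ : ZMod k → ℂ → ℂ) (i : ZMod k) (y r : ℝ) (X : ℂ → ℂ) : Prop where
  nat : IsNat b g X (HP 0 ∪ ball ((y : ℂ) * I) r)
  ext : EqOn X (hat (ψ i)) (HP 0)

/-- disc data at `i y` for the cylinder of `b i` (`δ = ρ₁ / 64`); `Φ` is the rotation coordinate. -/
structure Dy (n : ℕ) (c : ℂ) (b g : ZMod k → ℂ) (ρ₁ : ℝ) (H : ℕ → ℂ → ℂ) (P : ℂ → ℂ) (y : ℝ)
    (X : ℂ → ℂ) (G : ℕ → ℂ → ℂ) (Φ : ℂ → ℂ) : Prop where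
  ls : LevSys n c b g G (ball ((y : ℂ) * I) (3 * ρ₁ / 4)) k
  g0 : G 0 = X
  agr : ∀ q ≤ k, ∀ w ∈ ball ((y : ℂ) * I) (3 * ρ₁ / 4), w.re < -(3 * (ρ₁ / 64)) → G q w = GW H q w
  good : ∀ w ∈ ball ((y : ℂ) * I) (ρ₁ / 2), ∀ q ≤ k, ‖tau b g G q w - 1‖ ≤ 1 / 100 ∧
    (1 ≤ q → lev n c b g G q w ≤ 1 / 4)
  fdf : DifferentiableOn ℂ Φ (ball ((y : ℂ) * I) (ρ₁ / 2))
  fno : ∀ w ∈ ball ((y : ℂ) * I) (ρ₁ / 2), ‖Φ w - (w - Complex.log (rho n b))‖ ≤ ρ₁ / 1000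
  fag : ∀ w ∈ ball ((y : ℂ) * I) (ρ₁ / 2), w.re < -(4 * (ρ₁ / 64)) →
    Φ w = w - Complex.log (rho n b) + P (Complex.exp w)

/-- the flat disc at `i y` of the cylinder `i` is glued to the cylinder `l`: `w ↔ w₁ - w`. -/
structure Glu (b g : ZMod k → ℂ) (ψ : ZMod k → ℂ → ℂ) (i l : ZMod k) (y r : ℝ) (X : ℂ → ℂ)
    (w₁ : ℂ) : Prop where
  fx : FX b g ψ i y r X
  gl : ∀ w ∈ ball ((y : ℂ) * I) r, w₁.re < w.re → X w = hat (ψ l) (w₁ - w)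

/-- `1` if `l = i`, else `0`. -/
def ee (i l : ZMod k) : ℂ := if l = i then 1 else 0

/-- logarithms of `ψ l - b i` on all cylinders. -/
structure LG (b : ZMod k → ℂ) (ψ : ZMod k → ℂ → ℂ) (i : ZMod k) (N : ZMod k → ℂ → ℂ) : Prop where
  diff : ∀ l, DifferentiableOn ℂ (N l) (ball 0 1)
  eq : ∀ l, ∀ w ∈ HP 0, Complex.exp (ee i l * w + N l (Complex.exp w)) = hat (ψ l) w - b i

/-- the logarithm of `X - b i` on the extended domain. -/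
structure MX (b : ZMod k → ℂ) (i : ZMod k) (N : ZMod k → ℂ → ℂ) (y r : ℝ) (X M : ℂ → ℂ) : Prop where
  diff : DifferentiableOn ℂ M (HP 0 ∪ ball ((y : ℂ) * I) r)
  eq : ∀ w ∈ HP 0 ∪ ball ((y : ℂ) * I) r, Complex.exp (M w) = X w - b i
  left : ∀ w ∈ HP 0, M w = w + N i (Complex.exp w)

/-- the integer of a gluing: `M w = log of (ψ l - b i)` at `w₁ - w`, plus `2 π i m`. -/
def MM (i l : ZMod k) (N : ZMod k → ℂ → ℂ) (y r : ℝ) (M : ℂ → ℂ) (w₁ : ℂ) (m : ℤ) : Prop :=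
  ∀ w ∈ ball ((y : ℂ) * I) r, w₁.re < w.re →
    M w = ee i l * (w₁ - w) + N l (Complex.exp (w₁ - w)) + 2 * Real.pi * I * m

/-- the transfer constant from the cylinder `i` to the cylinder `i - q`. -/
def Kq (n : ℕ) (b : ZMod k → ℂ) (ψ : ZMod k → ℂ → ℂ) (i : ZMod k) (q : ℕ) : ℂ :=
  deriv (ψ i) 0 / (deriv (ψ (i - (q : ZMod k))) 0 * ∏ p ∈ Finset.Icc 1 q, fd n (b (i - (p : ZMod k))))

/-- the clusters: output of CLA. `S` is the set of slit directions (all real lifts) of the good cylinder at the scale `a`, `sh i` the shift of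
the cylinder `i`. -/
structure Clu (b g : ZMod k → ℂ) (ψ : ZMod k → ℂ → ℂ) (θ a : ℝ) (S : Set ℝ) (sh : ZMod k → ℝ) :
    Prop where
  per : ∀ y ∈ S, ∀ m : ℤ, y + m * (2 * Real.pi) ∈ S
  sep : ∀ y ∈ S, ∀ y' ∈ S, |y - y'| ≤ a / 2 ^ 60 ∨ a < |y - y'|
  fin : ∀ F : Finset ℝ, (∀ y ∈ F, 0 ≤ y ∧ y < 2 * Real.pi ∧ y ∈ S) → F.card ≤ 5
  ne : S.Nonempty
  rt : ∀ y ∈ S, ∃ y' ∈ S, |y' - (y + θ)| ≤ 256 * (a / 2 ^ 60)
  fw : ∀ i y, (∀ y' ∈ S, a / 2 ^ 34 ≤ |y - (y' + sh i)|) → Flat b g (ψ i) y (2 * (a / 2 ^ 42))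
  fa : ∀ i y, (∀ y' ∈ S, a / 16 ≤ |y - (y' + sh i)|) → Flat b g (ψ i) y (16 * (a / 2 ^ 15))
  nf : ∀ i, ∀ y' ∈ S, ¬ Flat b g (ψ i) (y' + sh i) (a / 2 ^ 42)

/-- the selected slit of the window `|y - yc| < ω₀`: depth `T`, height `η`; minimal depth, then lowest. -/
structure Pick (b g : ZMod k → ℂ) (χ : ℂ → ℂ) (yc ω₀ T₀ T η : ℝ) : Prop where
  t0 : 0 ≤ T
  t1 : T ≤ T₀
  near : |η - yc| ≤ 2 ^ 9 * T₀
  sl : Slit b g χ T η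
  mn : ∀ y', |y' - yc| < ω₀ → ∀ t < T, ¬ Slit b g χ t y'
  lo : ∀ y', yc - ω₀ < y' → y' < η → ¬ Slit b g χ T y'

/-- the window domain. -/
def WD (yc ω₀ T : ℝ) : Set ℂ := HP 0 ∪ {w | |w.im - yc| < ω₀ ∧ w.re < T}

end

/-- the chart at a zero `ζ` of order `m`: natural coordinate `W = u ^ ((m+2)/2)`. -/
structure PCh {k : ℕ} [NeZero k] (b g : ZMod k → ℂ) (ζ : ℂ) (m : ℕ) (ε : ℝ) (kk : ℂ → ℂ) : Prop where
  pos : 0 < ε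
  diff : DifferentiableOn ℂ kk (ball 0 ε)
  inj : InjOn kk (ball 0 ε)
  val : kk 0 = ζ
  av : ∀ u ∈ ball (0 : ℂ) ε, ∀ j, kk u ≠ b j
  eq : ∀ u ∈ ball (0 : ℂ) ε, deriv kk u ^ 2 * BB b g (kk u) = (((m : ℂ) + 2) / 2) ^ 2 * u ^ m

/-- the `j`-th prong map: natural near the positive real axis, extended to the slit plane. -/
def YY (m : ℕ) (kk : ℂ → ℂ) (j : ℕ) (W : ℂ) : ℂ :=
  kk (Complex.exp (2 * Real.pi * I * j / (m + 2)) * W ^ ((2 : ℂ) / (m + 2)))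

/-- the prong index of the horizontal ray at height `η` ending at `Re w = T`. -/
def Idx (m : ℕ) (kk χ : ℂ → ℂ) (T η : ℝ) (j : ℕ) : Prop :=
  ∃ s₀ > (0 : ℝ), ∀ s ∈ Ioo 0 s₀, χ (((T - s : ℝ) : ℂ) + η * I) = YY m kk j s

/-- sets of heights: pure form of the cluster structure (`s` small, `a` large). -/
structure ClS (S : Set ℝ) (s a : ℝ) : Prop where
  per : ∀ y ∈ S, ∀ m : ℤ, y + m * (2 * Real.pi) ∈ S
  sep : ∀ y ∈ S, ∀ y' ∈ S, |y - y'| ≤ s ∨ a < |y - y'|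
  fin : ∀ F : Finset ℝ, (∀ y ∈ F, 0 ≤ y ∧ y < 2 * Real.pi ∧ y ∈ S) → F.card ≤ 5
  ne : S.Nonempty

/-- the scales. -/
def rr (d₀ : ℝ) (m : ℕ) : ℝ := min d₀ 1 / 4 * (1 / 2 ^ 60) ^ m

end MZS
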