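import Pool.Agent.helper54.MZ.Defs

/-!
# Project mz: (MP_af9036_an): Spec 1 (logarithms, good orbits, cylinders, gluing chain, transfer)

Paper: /team-store/MP_af9036_allzeta_helper54.md. File `Pool/Agent/<seat>/MZ/XX.lean`, `import Pool.Agent.helper54.MZ.Spec1`,
`namespace MZS`, `open MPS`, `theorem XX (h : YY_stmt) ... : XX_stmt`. Any other statement of this file and of helper36/MP/SpecN, SpecP, SpecQ,
SpecC (all proved; namespace `MPS`) may be a hypothesis (no circles). Auxiliary lemmas prefixed `XX_`. The proofs of project mp: (Pool/Agent/*/MP/*.lean) may be copied.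
-/

set_option autoImplicit false

open Complex Metric Set Filter Topology MeasureTheory

noncomputable section

namespace MZS

open MPS

/-! ## Part A: logarithms along curves -/

/-- LOG2: continuous logarithm on a rectangle.
PROOF. `K ∘ (projIcc × projIcc)` is continuous and never `0` on `ℝ × ℝ` (simply connected, locally path connected); lift through the covering `exp : ℂ → ℂ \ {0}`
(`Complex.isCoveringMap_exp`, `IsCoveringMap.existsUnique_continuousMap_lifts`). Or subdivide the rectangle. -/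
def LOG2_stmt : Prop := ∀ (a b a' b' : ℝ) (K : ℝ × ℝ → ℂ), a ≤ b → a' ≤ b' →
  ContinuousOn K (Icc a b ×ˢ Icc a' b') → (∀ p ∈ Icc a b ×ˢ Icc a' b', K p ≠ 0) →
  ∃ L : ℝ × ℝ → ℂ, ContinuousOn L (Icc a b ×ˢ Icc a' b') ∧
    ∀ p ∈ Icc a b ×ˢ Icc a' b', Complex.exp (L p) = K p

/-- LCU: the change of a logarithm along a curve does not depend on the logarithm.
PROOF. `(L - L') / (2 π i)` is continuous with integer values on `[a,b]`. Second part: by LOG2 (or the same lifting). -/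
def LCU_stmt : Prop := (∀ (a b : ℝ) (F L L' : ℝ → ℂ), a ≤ b → ContinuousOn L (Icc a b) →
  ContinuousOn L' (Icc a b) → (∀ t ∈ Icc a b, Complex.exp (L t) = F t) →
  (∀ t ∈ Icc a b, Complex.exp (L' t) = F t) → L b - L a = L' b - L' a) ∧
  (∀ (a b : ℝ) (F : ℝ → ℂ), a ≤ b → ContinuousOn F (Icc a b) → (∀ t ∈ Icc a b, F t ≠ 0) →
    ∃ L : ℝ → ℂ, ContinuousOn L (Icc a b) ∧ ∀ t ∈ Icc a b, Complex.exp (L t) = F t)

/-- WND: a closed curve `Γ` that never meets `ω Γ` does not wind around `ω Γ(a)`.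
PROOF. `K (t,t') = Γ t - ω Γ t'` has a continuous logarithm `ℓ` on the square (LOG2). `ℓ (b,t') - ℓ (a,t')` is in `2 π i ℤ` (`K (a,t') = K (b,t')`) and continuous in `t'`, so constant. Let
`t*` maximise `‖Γ‖` on `[a,b]`; `Γ t* ≠ 0` (otherwise `Γ = 0 = ωΓ`). `K (t,t*) / (-ω Γ t*) = 1 - Γ t / (ω Γ t*)` has real part `≥ 0` and is not `0`, so it is in `slitPlane`; its principal logarithm is continuous in `t`
and takes the same value at `a` and `b`; hence (LCU) `ℓ (b,t*) = ℓ (a,t*)`, so `ℓ (b,a) = ℓ (a,a)`; LCU again for `L`. -/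
def WND_stmt : Prop := ∀ (a b : ℝ) (Γ L : ℝ → ℂ) (ω : ℂ), a ≤ b → ContinuousOn Γ (Icc a b) →
  Γ a = Γ b → ‖ω‖ = 1 → (∀ t ∈ Icc a b, ∀ t' ∈ Icc a b, Γ t ≠ ω * Γ t') →
  ContinuousOn L (Icc a b) → (∀ t ∈ Icc a b, Complex.exp (L t) = Γ t - ω * Γ a) → L b = L a

/-- WND2: two curves with the same ends.
PROOF. WND for the closed curve `Γ` on `[a,b]` followed by `t ↦ Γ' (2b - t)` on `[b, 2b-a]`, with the logarithm `L` followed by `t ↦ L' (2b-t) - L' b + L b`. -/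
def WND2_stmt : Prop := ∀ (a b : ℝ) (Γ Γ' L L' : ℝ → ℂ) (ω : ℂ), a ≤ b → ContinuousOn Γ (Icc a b) →
  ContinuousOn Γ' (Icc a b) → Γ a = Γ' a → Γ b = Γ' b → ‖ω‖ = 1 →
  (∀ t ∈ Icc a b, ∀ t' ∈ Icc a b, Γ t ≠ ω * Γ t' ∧ Γ t ≠ ω * Γ' t' ∧ Γ' t ≠ ω * Γ t' ∧
    Γ' t ≠ ω * Γ' t') →
  ContinuousOn L (Icc a b) → ContinuousOn L' (Icc a b) →
  (∀ t ∈ Icc a b, Complex.exp (L t) = Γ t - ω * Γ a) →
  (∀ t ∈ Icc a b, Complex.exp (L' t) = Γ' t - ω * Γ' a) → L b - L a = L' b - L' a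

/-! ## Part B: good backward orbits -/

/-- SEP: two good backward orbits are never siblings.
PROOF. Suppose `x q = ω^j x' q`, `1 ≤ j < n`. Applying `z^n+c`: `x p = x' p` for all `p < q` (`om n ^ n = 1`; for the cycle type use `IsCyc.step`), in particular `x 0 = x' 0`. If `x` is the cycle type (`x 0 = b i`), then `x'` is also
(`GOr.av` at `0`), with the same `i` (`b` injective), and `b (i-q) = ω^j b (i-q)`, impossible (`b ≠ 0`, `om n ^ j ≠ 1`). Symmetric. If both are `GOr`: `tl` for `x` at `q` and `bl` for `x'` at `q-1`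
contradict each other: the products and `BB (x 0)` agree, as `‖fd n (om n ^ j * z)‖ = ‖fd n z‖`. -/
def SEP_stmt : Prop := ∀ (n k : ℕ) [NeZero k] (c : ℂ) (b g : ZMod k → ℂ) (x x' : ℕ → ℂ), 2 ≤ n →
  IsCyc n c b → GO n c b g x → GO n c b g x' → ∀ q, 1 ≤ q → q ≤ k → ∀ j ∈ Finset.Ico 1 n,
    x q ≠ om n ^ j * x' q

/-- EQO: good backward orbits with the same end point agree.
PROOF. Induction: `x (q+1) ^ n = x' (q+1) ^ n`, `x' (q+1) ≠ 0`, so `x (q+1) = om n ^ j * x' (q+1)` for some `j < n` (the powers of `om n` are all `n`-th roots of unity); `j = 0` by SEP. -/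
def EQO_stmt : Prop := ∀ (n k : ℕ) [NeZero k] (c : ℂ) (b g : ZMod k → ℂ) (x x' : ℕ → ℂ), 2 ≤ n →
  IsCyc n c b → GO n c b g x → GO n c b g x' → x 0 = x' 0 → ∀ q ≤ k, x q = x' q

/-- GOL: level systems with good level functions give good backward orbits.
PROOF. `deriv (G 0) w = (∏_{p<q} fd n (G (p+1) w)) * deriv (G q) w` (differentiate `rel`; `fd n z = n z^(n-1)`), `deriv (G 0) w ^ 2 * BB (G 0 w) = 1` (nat0). So with `Π = ∏_{p<q} ‖fd n (G (p+1) w)‖ > 0`: `‖tau q w‖ Π² ‖BB (G 0 w)‖ = ‖BB (G q w)‖`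
and `‖bet q j w‖ Π² ‖BB (G 0 w)‖ = ‖BB (om n ^ j * G q w)‖`; `‖tau q w‖ ≥ 3/4`, `‖bet q j w‖ ≤ lev q w ≤ 1/4`. Avoidance: LEA. -/
def GOL_stmt : Prop := ∀ (n k : ℕ) [NeZero k] (c : ℂ) (b g : ZMod k → ℂ) (G : ℕ → ℂ → ℂ) (Ω : Set ℂ)
  (w : ℂ), 2 ≤ n → IsCyc n c b → IsOpen Ω → LevSys n c b g G Ω k → w ∈ Ω →
  (∀ q ≤ k, ‖tau b g G q w - 1‖ ≤ 1 / 4 ∧ (1 ≤ q → lev n c b g G q w ≤ 1 / 4)) →
  GOr n c b g (fun q => G q w)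

/-- RPR: the product formula.
PROOF. `x q - b (i-q) = x (q+1)^n - b (i-(q+1))^n = ∏_{j<n} (x (q+1) - ω^j b (i-(q+1)))`; multiply over `q = 0..k-1`, `i - k = i` in `ZMod k`. Second: `∏_{1≤j<n} (β - ω^j β) = n β^(n-1) = fd n β`
(`∏_{1≤j<n} (1 - ω^j) = n`), reindex `q ↦ i - q`. -/
def RPR_stmt : Prop := ∀ (n k : ℕ) [NeZero k] (c : ℂ) (b : ZMod k → ℂ) (i : ZMod k), 2 ≤ n →
  IsCyc n c b → (∀ x : ℕ → ℂ, (∀ q < k, x (q + 1) ^ n + c = x q) →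
    (∀ q ∈ Finset.Icc 1 k, ∀ j ∈ Finset.Ico 1 n, x q ≠ om n ^ j * b (i - (q : ZMod k))) →
    x k - b i = RR n b i x * (x 0 - b i) ∧ RR n b i x ≠ 0) ∧
  RR n b i (fun q => b (i - (q : ZMod k))) = (rho n b)⁻¹

/-- INV: the change of `log RR` does not depend on the path of good orbits.
PROOF. For each `(q,j)` choose logarithms `ℓ`, `ℓ'` of `Γ t q - om n ^ j * b (i-q)` and of `Γ' t q - ...` (LCU; not `0` by SEP with the cycle type orbit `q ↦ b (i-q)`). WND2 with `ω = om n ^ j` (`Γ 0 q = Γ' 0 q = b (i-q)`, `Γ 3 q = Γ' 3 q`; SEP gives all four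
conditions): same change. `-∑∑ ℓ` is a logarithm of `RR (Γ t)`; LCU. -/
def INV_stmt : Prop := ∀ (n k : ℕ) [NeZero k] (c : ℂ) (b g : ZMod k → ℂ) (i l : ZMod k)
  (Γ Γ' : ℝ → ℕ → ℂ) (L L' : ℝ → ℂ), 2 ≤ n → IsCyc n c b → GP n c b g i l Γ → GP n c b g i l Γ' →
  ContinuousOn L (Icc 0 3) → ContinuousOn L' (Icc 0 3) →
  (∀ t ∈ Icc (0 : ℝ) 3, Complex.exp (L t) = RR n b i (Γ t)) →
  (∀ t ∈ Icc (0 : ℝ) 3, Complex.exp (L' t) = RR n b i (Γ' t)) → L 3 - L 0 = L' 3 - L' 0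

/-- INVC: closed paths. PROOF. INV with the constant path `Γ' t q = b (i - q)` and `L' = const` (RPR: `RR ≠ 0`). -/
def INVC_stmt : Prop := ∀ (n k : ℕ) [NeZero k] (c : ℂ) (b g : ZMod k → ℂ) (i : ZMod k)
  (Γ : ℝ → ℕ → ℂ) (L : ℝ → ℂ), 2 ≤ n → IsCyc n c b → GP n c b g i i Γ →
  ContinuousOn L (Icc 0 3) → (∀ t ∈ Icc (0 : ℝ) 3, Complex.exp (L t) = RR n b i (Γ t)) → L 3 = L 0

/-! ## Part C: cylinders and flat discs -/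

/-- CYE: Phase 1 data for every cylinder.
PROOF. `δ = ρ₁/64 ≤ 1/1024`. Shift the base point by TR (`b' j = b (i + j)` etc.; `ψ' 0 = ψ (i+0)`), PH1: `H = G`; H1 with `A = fun _ => 3 δ`, `Q = k`. P1A: LevSys (transfer back: `BB b' g' = BB b g`, so `IsNat`, `tau`, `bet`, `eef`, `lev`, `rho` are the same for `b'`
and `b`: `er`, `BB` are sums over the whole cycle). `good`: PT1 with `t = -Re w - 3δ > 2δ`: `≤ 4 ε/(4 δ²)` or `≤ 4 ε` (`ε ≤ ρ₁³/4^200`), `q = 0`: `tau 0 = 1` (LEI). `P`: PHI on `ball 0 (exp (-(3δ+δ/8)))`; restrict. `pe`: as in INC1 with `Q = k`, `κ = -log ρ`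
(P1U: `deriv (G k) 0 = deriv (ψ' 0) 0 / ρ`; PNX, MaxPN, NH (c); see Pool/Agent/helper46/MP/INC1.lean), for `w ∈ HP (3δ+δ/4) ⊇ HP (4δ)`. -/
def CYE_stmt : Prop := ∀ (n k : ℕ) [NeZero k] (c : ℂ) (b g : ZMod k → ℂ) (ψ : ZMod k → ℂ → ℂ)
  (R ε ρ₁ : ℝ), ST n k c b g ψ R ε ρ₁ → ∀ i : ZMod k, ∃ (H : ℕ → ℂ → ℂ) (P : ℂ → ℂ),
    Cy n c b g ψ (ρ₁ / 64) i H P

/-- DYE: disc data for every flat disc.
PROOF. As in FR (Pool/Agent/helper97/MP/FR.lean) for the shifted cycle `b' j = b (i+j)`: `ps`, SU2 with `G1 = H` (`Cy.s1`), PH2 (`ε ≤ ρ₁²/4^200`): `H2 .. (fun _ => r) G k`, `r > 3ρ₁/4`. P2A: LevSys, agreement. `good`: PT2 with `t = ρ₁/4` (`‖w - x‖ + ρ₁/4 ≤ 3ρ₁/4 < r`):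
`1300·16 ε/ρ₁² ≤ 1/100`. `Φ`: as in ROT (Pool/Agent/helper6/MP/ROT.lean: `ROT_sqrt`, primitive on `ball x (ρ₁/2)` with the value `w₀ - log ρ + P (exp w₀)` at `w₀ = x - ρ₁/4`); both `Φ'` and `1 + exp w P'(exp w)` are square roots of `tau k` within `1/4`
of `1`, so `fag`. `fno`: at `w₀`: `≤ δ/32 = ρ₁/2048`; `‖Φ' - 1‖ ≤ ‖tau k - 1‖ ≤ 1300·16 ε/ρ₁² ≤ 10^-5`, and `‖w - w₀‖ ≤ ρ₁`: total `≤ ρ₁/2048 + 10^-5 ρ₁ ≤ ρ₁/1000`. -/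
def DYE_stmt : Prop := ∀ (n k : ℕ) [NeZero k] (c : ℂ) (b g : ZMod k → ℂ) (ψ : ZMod k → ℂ → ℂ)
  (R ε ρ₁ : ℝ) (i : ZMod k) (y : ℝ) (H : ℕ → ℂ → ℂ) (P X : ℂ → ℂ), ST n k c b g ψ R ε ρ₁ →
  Cy n c b g ψ (ρ₁ / 64) i H P → FX b g ψ i y (16 * ρ₁) X →
  MapsTo X (ball ((y : ℂ) * I) ρ₁) (ball 0 R) → ∃ (G : ℕ → ℂ → ℂ) (Φ : ℂ → ℂ),
    Dy n c b g ρ₁ H P y X G Φ

/-- PSH: the rotated disc.
PROOF. `log ρ = Λ + iθ`, `θ = arg ρ`, `0 < Λ ≤ ε ≤ ρ₁/1000`: `‖Φ w - i(y-θ)‖ ≤ ‖w - iy‖ + Λ + ρ₁/1000 < ρ₁`. Both sides are holomorphic on `ball (iy) (ρ₁/2)` (convex). Where `Re w < -5ρ₁/64`: `Φ w = w - log ρ + P (exp w)` has real part `< 0` (`pe`), so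
`X' (Φ w) = hat (ψ i) (Φ w) = GW H k w = G k w` (`agr`). Identity theorem. -/
def PSH_stmt : Prop := ∀ (n k : ℕ) [NeZero k] (c : ℂ) (b g : ZMod k → ℂ) (ψ : ZMod k → ℂ → ℂ)
  (R ε ρ₁ : ℝ) (i : ZMod k) (y : ℝ) (H : ℕ → ℂ → ℂ) (P X : ℂ → ℂ) (G : ℕ → ℂ → ℂ) (Φ X' : ℂ → ℂ),
  ST n k c b g ψ R ε ρ₁ → Cy n c b g ψ (ρ₁ / 64) i H P → FX b g ψ i y (16 * ρ₁) X →
  Dy n c b g ρ₁ H P y X G Φ → FX b g ψ i (y - (rho n b).arg) (16 * ρ₁) X' →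
  ∀ w ∈ ball ((y : ℂ) * I) (ρ₁ / 2),
    Φ w ∈ ball (((y - (rho n b).arg : ℝ) : ℂ) * I) ρ₁ ∧ X' (Φ w) = G k w

/-- the relation between two consecutive gluings. -/
def GRel {k : ℕ} [NeZero k] (n : ℕ) (b : ZMod k → ℂ) (ρ₁ y : ℝ) (H' : ℕ → ℂ → ℂ) (P' : ℂ → ℂ)
    (G : ℕ → ℂ → ℂ) (Φ : ℂ → ℂ) (w₁ w₁' : ℂ) : Prop :=
  ∀ w ∈ ball ((y : ℂ) * I) (ρ₁ / 2), w₁.re + 5 * (ρ₁ / 64) < w.re →
    (∀ q ≤ k, G q w = GW H' q (w₁ - w)) ∧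
    Φ w + (w₁ - w - Complex.log (rho n b) + P' (Complex.exp (w₁ - w))) = w₁'

/-- GLT: transport of a gluing by one rotation.
PROOF. `θ = arg ρ`, `Λ = log‖ρ‖ ≤ ε`. `V = {w ∈ ball (iy) (ρ₁/2) | Re w > Re w₁ + 5ρ₁/64}` is convex and contains `w* = iy + ρ₁/4`. For `w ∈ V`, `v = w₁ - w ∈ HP (5ρ₁/64)`: `q ↦ G q w` and `q ↦ GW H' q v` are good orbits (GOL with `Dy.good`, `Cy.good`) with the same
end `X w = hat (ψ l) v` (`Glu.gl`, `g0`, `Sys1.g0`); EQO. So by PSH and `Cy.pe` (for `l`): `X' (Φ w) = G k w = GW H' k v = hat (ψ l) (Φl v)`, `Φl v = v - log ρ + P' (exp v)`, `Re (Φl v) < 0`.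
NU for `X'` at `Φ w*` and `hat (ψ l)` at `v* = Φl (w₁ - w*)`. Sign `1` is impossible: moving left (both sides stay in the domains) and letting the real part tend to `-∞` gives `b i = b l`, `i = l`, and then by injectivity of `ψ i` (NI) `exp (Φ w* - t) = exp (v* - t)`, so
`Re (Φ w*) = Re v* < 0`, but `Re (Φ w*) ≥ ρ₁/4 - Λ - ρ₁/1000 > 0`. Sign `-1`, `K = {h | Φ w* + h ∈ ball (i(y-θ)) (16ρ₁), Re (v* - h) < 0}` (convex): `X' w' = hat (ψ l) (w₁' - w')` with `w₁' = Φ w* + v*`.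
`‖w₁' - (w₁ - 2 log ρ)‖ ≤ ρ₁/1000 + ρ₁/2048 ≤ ρ₁/500`. For `w ∈ V`: `Re (Φ w) > Re w₁'` (as `Re (Φ w) ≥ Re w₁ + 5ρ₁/64 - Λ - ρ₁/1000`, `Re w₁' ≤ Re w₁ + ρ₁/500`), so `hat (ψ l) (w₁' - Φ w) = X' (Φ w) = hat (ψ l) (Φl (w₁ - w))`: the difference
`w₁' - Φ w - Φl (w₁ - w)` is in `2πi ℤ` (NI) and has modulus `< 1`, so it is `0`. -/
def GLT_stmt : Prop := ∀ (n k : ℕ) [NeZero k] (c : ℂ) (b g : ZMod k → ℂ) (ψ : ZMod k → ℂ → ℂ)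
  (R ε ρ₁ : ℝ) (i l : ZMod k) (y : ℝ) (H : ℕ → ℂ → ℂ) (P : ℂ → ℂ) (H' : ℕ → ℂ → ℂ) (P' X : ℂ → ℂ)
  (G : ℕ → ℂ → ℂ) (Φ X' : ℂ → ℂ) (w₁ : ℂ), ST n k c b g ψ R ε ρ₁ →
  Cy n c b g ψ (ρ₁ / 64) i H P → Cy n c b g ψ (ρ₁ / 64) l H' P' →
  Glu b g ψ i l y (16 * ρ₁) X w₁ → |w₁.re| ≤ ρ₁ / 32 → Dy n c b g ρ₁ H P y X G Φ →
  FX b g ψ i (y - (rho n b).arg) (16 * ρ₁) X' →
  ∃ w₁' : ℂ, Glu b g ψ i l (y - (rho n b).arg) (16 * ρ₁) X' w₁' ∧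
    ‖w₁' - (w₁ - 2 * Complex.log (rho n b))‖ ≤ ρ₁ / 500 ∧ GRel n b ρ₁ y H' P' G Φ w₁ w₁'

/-! ## Part D: the integers of a gluing chain -/

/-- LGE: logarithms of `ψ l - b i`.
PROOF. `l ≠ i`: `ψ l - b i` has no zero on the unit disc (PN.av, `PN.val`, `b` injective): holomorphic logarithm. `l = i`: `(ψ i u - b i)/u` extends to `0` by `deriv (ψ i) 0 ≠ 0` and has no zero; `N i` its logarithm. -/
def LGE_stmt : Prop := ∀ (k : ℕ) [NeZero k] (b g : ZMod k → ℂ) (ψ : ZMod k → ℂ → ℂ),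
  Function.Injective b → (∀ l, PN b g l (ψ l) 1) → ∀ i, ∃ N : ZMod k → ℂ → ℂ, LG b ψ i N

/-- MXE: logarithm of an extension, and the integer of a gluing.
PROOF. `X - b i` has no zero on the ball (convex): holomorphic logarithm there, which on `ball ∩ HP 0` (convex, non empty) differs from `w + N i (exp w)` by a constant in `2πi ℤ`; correct it and glue. Second part: on the convex set `ball ∩ {Re w₁ < Re w}` both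
`M w` and `ee i l * (w₁ - w) + N l (exp (w₁ - w))` are logarithms of `X w - b i = hat (ψ l) (w₁ - w) - b i`. -/
def MXE_stmt : Prop := ∀ (k : ℕ) [NeZero k] (b g : ZMod k → ℂ) (ψ : ZMod k → ℂ → ℂ) (i : ZMod k)
  (N : ZMod k → ℂ → ℂ) (y r : ℝ) (X : ℂ → ℂ), LG b ψ i N → 0 < r → FX b g ψ i y r X →
  (∃ M : ℂ → ℂ, MX b i N y r X M) ∧ ∀ (M : ℂ → ℂ) (l : ZMod k) (w₁ : ℂ), MX b i N y r X M →
    Glu b g ψ i l y r X w₁ → ∃ m : ℤ, MM i l N y r M w₁ m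

/-- PTH: a path of good orbits through a gluing and the change of `log RR` along it.
PROOF. `wa = iy - ρ₁/4`, `wb = iy + ρ₁/4`, `vb = w₁ - wb` (`Re vb < -5ρ₁/64`), `Φl v = v - log ρ + P' (exp v)`. `Γ t q = H q (t exp wa)` on `[0,1]`; `G q (wa + (t-1)(wb - wa))` on `[1,2]`; `H' q ((3-t) exp vb)` on `[2,3]`. Continuity at `1`: `Dy.agr`; at `2`: GRel. Good orbits: GOL
(at `w = wa + log t`, resp. `w`, resp. `vb + log (3-t)`), cycle type at `t = 0, 3` (`Cy.val`).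
`L t = -log ρ + P u + N i (u exp (-log ρ + P u)) - N i u`, `u = t exp wa`, on `[0,1]`; `M' (Φ w) - M w`, `w = wa + (t-1)(wb-wa)` on `[1,2]`;
`ee i l (-log ρ + P' u) + N l (u exp (-log ρ + P' u)) - N l u + 2πi (m' - m)`, `u = (3-t) exp vb`, on `[2,3]`. (`‖u exp (-log ρ + P u)‖ < 1` by `pe` for `u ≠ 0`.) `exp (L t) = RR (Γ t)`: by RPR, `Γ t k - b i = RR * (Γ t 0 - b i)`, and `Γ t 0`, `Γ t k` are
`hat (ψ i) w`, `hat (ψ i) (w - log ρ + P (exp w))`, resp. `X w`, `X' (Φ w)` (PSH), resp. `hat (ψ l) v`, `hat (ψ l) (Φl v)`; at `t = 0`: RPR second part; at `t = 3`: if `l ≠ i` `RR = 1` by RPR (`x k = x 0 = b l ≠ b i`) and `ee = 0`; if `l = i` as at `t = 0`.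
The two formulas agree at `t = 1` (`MX.left`) and at `t = 2` (MM for `M` at `wb` and for `M'` at `Φ wb`, where `w₁' - Φ wb = Φl vb` by GRel, `Re (Φl vb) < 0`, `Φ wb ∈ ball` by PSH). -/
def PTH_stmt : Prop := ∀ (n k : ℕ) [NeZero k] (c : ℂ) (b g : ZMod k → ℂ) (ψ : ZMod k → ℂ → ℂ)
  (R ε ρ₁ : ℝ) (i l : ZMod k) (y : ℝ) (H : ℕ → ℂ → ℂ) (P : ℂ → ℂ) (H' : ℕ → ℂ → ℂ) (P' X : ℂ → ℂ)
  (G : ℕ → ℂ → ℂ) (Φ X' : ℂ → ℂ) (w₁ w₁' : ℂ) (N : ZMod k → ℂ → ℂ) (M M' : ℂ → ℂ) (m m' : ℤ),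
  ST n k c b g ψ R ε ρ₁ → Cy n c b g ψ (ρ₁ / 64) i H P → Cy n c b g ψ (ρ₁ / 64) l H' P' →
  Glu b g ψ i l y (16 * ρ₁) X w₁ → |w₁.re| ≤ ρ₁ / 32 → Dy n c b g ρ₁ H P y X G Φ →
  Glu b g ψ i l (y - (rho n b).arg) (16 * ρ₁) X' w₁' → GRel n b ρ₁ y H' P' G Φ w₁ w₁' →
  LG b ψ i N → MX b i N y (16 * ρ₁) X M → MX b i N (y - (rho n b).arg) (16 * ρ₁) X' M' →
  MM i l N y (16 * ρ₁) M w₁ m → MM i l N (y - (rho n b).arg) (16 * ρ₁) M' w₁' m' →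
  ∃ (Γ : ℝ → ℕ → ℂ) (L : ℝ → ℂ), GP n c b g i l Γ ∧ ContinuousOn L (Icc 0 3) ∧
    (∀ t ∈ Icc (0 : ℝ) 3, Complex.exp (L t) = RR n b i (Γ t)) ∧
    L 3 - L 0 = (1 - ee i l) * Complex.log (rho n b) + 2 * Real.pi * I * ((m' : ℂ) - m)

/-- CHN: the chain of gluings.
PROOF. CYE for `i`, `l`; DYE for every `s < S`; GLT inductively gives `w s` (`‖w s - (w₁ - 2 s log ρ)‖ ≤ s ρ₁/500`; `Re log ρ = log‖ρ‖ ≤ ε ≤ ρ₁/10^6`, `s ≤ 5`, so `|Re (w s)| ≤ ρ₁/100 + 10 ε + ρ₁/100 ≤ ρ₁/32`). MXE: `m s`. PTH for every `s < S`: paths `Γ_s` with change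
`(1 - ee) log ρ + 2πi (m (s+1) - m s)` of `log RR`; by INV it does not depend on `s`, so `m (s+1) - m s = d`; if `l = i` it is `0` by INVC and `ee = 1`, so `d = 0` (if `S = 0` take `d = 0`). (`y - (s+1) θ = (y - s θ) - θ`.) -/
def CHN_stmt : Prop := ∀ (n k : ℕ) [NeZero k] (c : ℂ) (b g : ZMod k → ℂ) (ψ : ZMod k → ℂ → ℂ)
  (R ε ρ₁ : ℝ) (i l : ZMod k) (S : ℕ) (y : ℝ) (X : ℕ → ℂ → ℂ) (w₁ : ℂ) (N : ZMod k → ℂ → ℂ)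
  (M : ℕ → ℂ → ℂ), ST n k c b g ψ R ε ρ₁ → S ≤ 5 →
  (∀ s ≤ S, FX b g ψ i (y - s * (rho n b).arg) (16 * ρ₁) (X s)) →
  (∀ s ≤ S, MapsTo (X s) (ball (((y - s * (rho n b).arg : ℝ) : ℂ) * I) ρ₁) (ball 0 R)) →
  Glu b g ψ i l y (16 * ρ₁) (X 0) w₁ → |w₁.re| ≤ ρ₁ / 100 → LG b ψ i N →
  (∀ s ≤ S, MX b i N (y - s * (rho n b).arg) (16 * ρ₁) (X s) (M s)) →
  ∃ (w : ℕ → ℂ) (m : ℕ → ℤ) (d : ℤ), w 0 = w₁ ∧
    (∀ s ≤ S, Glu b g ψ i l (y - s * (rho n b).arg) (16 * ρ₁) (X s) (w s) ∧ |(w s).re| ≤ ρ₁ / 32 ∧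
      ‖w s - (w₁ - 2 * s * Complex.log (rho n b))‖ ≤ s * (ρ₁ / 500) ∧
      MM i l N (y - s * (rho n b).arg) (16 * ρ₁) (M s) (w s) (m s)) ∧
    (∀ s < S, m (s + 1) = m s + d) ∧ (l = i → d = 0)

/-- E1C: gluing of two different cylinders: contradiction unless `S ∣ p`.
PROOF. LGE, MXE (for `M s`), CHN. `y_S = y - Sθ`, `‖i y_S + 2πi p - i y‖ ≤ ρ₁`. For `v ∈ ball (i y_S) (15ρ₁)`: `v + 2πi p ∈ ball (iy) (16ρ₁)`, and `X S v = X 0 (v + 2πi p)` (identity theorem on the convex set `ball (i y_S) (15ρ₁)`; for `Re v < 0` both are `hat (ψ i) v`). Similarly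
`M S v = M 0 (v + 2πi p) - 2πi p` there (both are logarithms of `X S v - b i`, equal for `Re v < 0` by `MX.left`). Take `v` with `Re v = 2ρ₁`, `Im v = y_S` (`> Re (w s)`): `hat (ψ l) (w S - v) = X S v = hat (ψ l) (w 0 - v - 2πi p)`, so by NI the exponentials of the two arguments agree.
MM with `ee i l = 0`: `M S v = N l (exp (w S - v)) + 2πi (m S)`, `M 0 (v + 2πi p) = N l (exp (w 0 - v)) + 2πi (m 0)`: `m S = m 0 - p`. And `m S = m 0 + S d`. So `p = -S d`. -/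
def E1C_stmt : Prop := ∀ (n k : ℕ) [NeZero k] (c : ℂ) (b g : ZMod k → ℂ) (ψ : ZMod k → ℂ → ℂ)
  (R ε ρ₁ : ℝ) (i l : ZMod k) (S : ℕ) (p : ℤ) (y : ℝ) (X : ℕ → ℂ → ℂ) (w₁ : ℂ),
  ST n k c b g ψ R ε ρ₁ → i ≠ l → 1 ≤ S → S ≤ 5 →
  (∀ s ≤ S, FX b g ψ i (y - s * (rho n b).arg) (16 * ρ₁) (X s)) →
  (∀ s ≤ S, MapsTo (X s) (ball (((y - s * (rho n b).arg : ℝ) : ℂ) * I) ρ₁) (ball 0 R)) →
  Glu b g ψ i l y (16 * ρ₁) (X 0) w₁ → |w₁.re| ≤ ρ₁ / 100 →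
  |S * (rho n b).arg - 2 * Real.pi * p| ≤ ρ₁ → (S : ℤ) ∣ p

/-- E2C: gluing of a cylinder with itself.
PROOF. `y_S = y - Sθ`, `w₀ = w₁ + 2πi j`, `‖w₀ - i(y + y_S)‖ ≤ |Re w₁| + ρ₁ ≤ 1.01ρ₁`. For `v ∈ ball (i y_S) (14ρ₁)`: `w₀ - v ∈ ball (iy) (16ρ₁)`. `Y v = X 0 (w₀ - v)` is holomorphic there, and for `Re v < 0`: `Re (w₀ - v) > Re w₁`, `Y v = hat (ψ i) (w₁ - w₀ + v) = hat (ψ i) v`. So
`X S v = X 0 (w₀ - v)` on `ball (i y_S) (14ρ₁)` (identity theorem). If `S = 0`: `v = w₀/2 ∈ ball (iy) (14ρ₁)` is fixed by `v ↦ w₀ - v`, so `deriv (X 0) v = - deriv (X 0) v = 0`, contradiction to `IsNat.eq`.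
Second claim: LGE, MXE, CHN with `l = i`: `d = 0`, so `m S = m 0`. `M 0 (w₀ - v) = M S v + 2πi c'` on `ball (i y_S) (14ρ₁)` (`c'` an integer). For `Re v < 0`, (`ee i i = 1`): `M 0 (w₀ - v) = (w₁ - w₀ + v) + N i (exp v) + 2πi (m 0) = v + N i (exp v) + 2πi (m 0 - j)`: `c' = m 0 - j`. For `v` with
`Re v = 2ρ₁`, `Im v = y_S`: `hat (ψ i) (w₀ - v) = X S v = hat (ψ i) (w S - v)` so `w S = w₀ + 2πi j₂`; `M 0 (w₀ - v) = (w₀ - v) + N i (exp (w₀ - v))`, `M S v = (w S - v) + N i (exp (w₀ - v)) + 2πi (m S)`: `c' = -j₂ - m S`. So `2 m 0 = j - j₂`, `j + j₂` is even, `= -2p`.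
`‖w S - (w₁ - 2S log ρ)‖ ≤ S ρ₁/500`: imaginary part: `|2π (j + j₂) + 2 S θ| ≤ ρ₁/100`, i.e. `|Sθ - 2π p| ≤ ρ₁`. -/
def E2C_stmt : Prop := ∀ (n k : ℕ) [NeZero k] (c : ℂ) (b g : ZMod k → ℂ) (ψ : ZMod k → ℂ → ℂ)
  (R ε ρ₁ : ℝ) (i : ZMod k) (S : ℕ) (j : ℤ) (y : ℝ) (X : ℕ → ℂ → ℂ) (w₁ : ℂ),
  ST n k c b g ψ R ε ρ₁ → S ≤ 5 →
  (∀ s ≤ S, FX b g ψ i (y - s * (rho n b).arg) (16 * ρ₁) (X s)) →
  (∀ s ≤ S, MapsTo (X s) (ball (((y - s * (rho n b).arg : ℝ) : ℂ) * I) ρ₁) (ball 0 R)) →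
  Glu b g ψ i i y (16 * ρ₁) (X 0) w₁ → |w₁.re| ≤ ρ₁ / 100 →
  |w₁.im - (2 * y - S * (rho n b).arg - 2 * Real.pi * j)| ≤ ρ₁ →
  S ≠ 0 ∧ ∃ p : ℤ, |S * (rho n b).arg - 2 * Real.pi * p| ≤ ρ₁

/-! ## Part K: transfer of flat discs between the cylinders -/

/-- KQM: the transfer constants. PROOF. `i - q - (k-q) = i`, reindex the product; all derivatives and `fd n (b _)` are `≠ 0`. -/
def KQM_stmt : Prop := ∀ (n k : ℕ) [NeZero k] (c : ℂ) (b g : ZMod k → ℂ) (ψ : ZMod k → ℂ → ℂ),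
  2 ≤ n → IsCyc n c b → (∀ i, PN b g i (ψ i) 1) → ∀ (i : ZMod k), ∀ q ≤ k,
    Kq n b ψ i q ≠ 0 ∧ Kq n b ψ i q * Kq n b ψ (i - (q : ZMod k)) (k - q) = (rho n b)⁻¹

/-- KQB: the transfer constants have modulus near `1`.
PROOF. `δ = ρ₁/64`. Upper bound `log‖Kq i q‖ ≤ 3δ + δ/8 + δ/32 ≤ 4δ`: for the shifted cycle (TR) PH1, PHI and PNX with `Q = q`, `exp κ = Kq i q = deriv (G q) 0 / deriv (ψ (i-q)) 0` (`deriv (G q) 0 = deriv (ψ i) 0 / ∏_{p=1}^q fd (b (i-p))` by the chain rule for `f^q ∘ G q = ψ i`): `ψ'` has the same derivative at `0` as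
the maximal `ψ (i-q)`, so its radius is `≤ 1` (as in INC1). Lower bound for `q < k`: KQM: `log‖Kq i q‖ = -log‖ρ‖ - log‖Kq (i-q) (k-q)‖ ≥ -ε - 4δ`; `q = k`: `Kq i k = 1/ρ`. -/
def KQB_stmt : Prop := ∀ (n k : ℕ) [NeZero k] (c : ℂ) (b g : ZMod k → ℂ) (ψ : ZMod k → ℂ → ℂ)
  (R ε ρ₁ : ℝ), ST n k c b g ψ R ε ρ₁ → ∀ (i : ZMod k) (q : ℕ), 1 ≤ q → q ≤ k →
    |Real.log ‖Kq n b ψ i q‖| ≤ ρ₁ / 16 + ε

/-- TRQ: transfer of flat discs to another cylinder.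
PROOF. As ROT (Pool/Agent/helper6/MP/ROT.lean) with the level `q` instead of `k`, for the shifted cycle: Phase 1 system `G1` (PH1), Phase 2 system (SU2, PH2 as in FR), `κ = log ‖Kq‖ + i arg Kq` in INC1 (prove INC1 with the explicit `κ`: PHI, PNX, MaxPN), `|Re κ| ≤ ρ₁/16 + ε` (KQB). `Φ` on `D = ball x (5ρ₁/8)`, `x = iy`,
`‖Φ w - w - κ‖ ≤ ρ₁/64`; `v₀ = i (y + arg Kq)`. `ROT_inv` with `s' = ρ₁/2`, `t = ρ₁/4`: `ρ₁/16 + ε + ρ₁/64 + ρ₁/4 ≤ 0.99 ρ₁/2`. Overlap with `hat (ψ (i-q))`: near `v₁ = v₀ - 3ρ₁/16` the inverse image `w` has `Re w ≤ -3ρ₁/16 + ρ₁/64 + ρ₁/16 + ε + ρ₁/64 < -(3δ+δ/4)`, `δ = ρ₁/64`. -/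
def TRQ_stmt : Prop := ∀ (n k : ℕ) [NeZero k] (c : ℂ) (b g : ZMod k → ℂ) (ψ : ZMod k → ℂ → ℂ)
  (R ε ρ₁ : ℝ) (i : ZMod k) (y : ℝ) (X : ℂ → ℂ) (q : ℕ), ST n k c b g ψ R ε ρ₁ →
  FX b g ψ i y (16 * ρ₁) X → MapsTo X (ball ((y : ℂ) * I) ρ₁) (ball 0 R) → 1 ≤ q → q < k →
  Flat b g (ψ (i - (q : ZMod k))) (y + (Kq n b ψ i q).arg) (ρ₁ / 4)

/-- TRF: transfer of flat discs, final form for finitely many radii.
PROOF. For every `r ∈ S`: `ρ₁ = r/16`, NG with `δ = ρ₁/64`, NGF with `ρ₀ = r`, FR with `ρ₀ = r`; `R₀` = maximum, `ε₀` = minimum of the bounds and of `ρ₁³/4^200`. `sh i l = 0` if `l = i`, else `arg (Kq i q)` with `q = (i - l).val ∈ [1,k-1]`, `i - q = l`: TRQ (`16ρ₁ = r`, `ρ₁/4 = r/64`). For `i ≠ l` the product of the two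
constants is `1/ρ` (KQM, `(l - i).val = k - q`), so the sum of the arguments is `-arg ρ` mod `2π`. -/
def TRF_stmt : Prop := ∀ (n : ℕ) (S : Finset ℝ), 2 ≤ n → (∀ r ∈ S, 0 < r ∧ r ≤ 1) →
  ∃ R₀ : ℝ, 4 ≤ R₀ ∧ ∃ ε₀ > (0 : ℝ), ∀ (k : ℕ) [NeZero k] (c : ℂ) (b g : ZMod k → ℂ)
    (ψ : ZMod k → ℂ → ℂ) (R ε : ℝ), SU n k c b g ψ R ε → R₀ ≤ R → ε ≤ ε₀ →
    (∀ (i : ZMod k), ∀ r ∈ S, ∀ y : ℝ, Flat b g (ψ i) y r →
      Flat b g (ψ i) (y - (rho n b).arg) (r / 64)) ∧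
    ∃ sh : ZMod k → ZMod k → ℝ, (∀ i l : ZMod k, ∀ r ∈ S, ∀ y : ℝ, Flat b g (ψ i) y r →
      Flat b g (ψ l) (y + sh i l) (r / 64)) ∧ (∀ i, sh i i = 0) ∧
      ∀ i l : ZMod k, i ≠ l → ∃ m : ℤ, sh i l + sh l i = -(rho n b).arg + 2 * Real.pi * m

end MZS
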